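import Pool.Agent.Helper89.UB.Stmts

set_option autoImplicit false

open Finset

namespace Pool.Agent.Helper89.UB

theorem pnat_desc (q m : ℕ) :
    ∏ i ∈ range m, ((q : ℂ) - (i : ℂ)) = ((q.descFactorial m : ℕ) : ℂ) := by
  induction m with
  | zero => simp
  | succ m ih =>
    rw [prod_range_succ, ih, Nat.descFactorial_succ]
    rcases le_or_gt m q with h | h
    · rw [Nat.cast_mul, Nat.cast_sub h]
      ring
    · have h0 : q.descFactorial m = 0 := Nat.descFactorial_eq_zero_iff_lt.2 h
      rw [h0]
      simp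

theorem st_PNAT (h1 : ST_SURC) (h2 : ST_BIN) : ST_PNAT := by
  intro n E hE q W
  rw [h2 n E hE q W]
  unfold PW
  rw [Int.cast_sum]
  apply sum_congr rfl
  intro m _
  rw [← h1 n E m W, pnat_desc, Nat.descFactorial_eq_factorial_mul_choose]
  have hm : ((m.factorial : ℕ) : ℂ) ≠ 0 := by
    exact_mod_cast Nat.factorial_ne_zero m
  push_cast
  field_simp

end Pool.Agent.Helper89.UB
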